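import Pool.Agent.Y246.KF.Cnt1

set_option autoImplicit false
set_option linter.unusedSectionVars false

/-!
# KF-COUNT (job 1883, helper246 for helper240): the estimates
-/

namespace Pool.Agent.Y246.KF

open Finset
open scoped Classical
open Pool.Agent.Y240.KF

/-- the basic weight -/
noncomputable def hf (r : ℕ) (g : ℝ) (w : ℕ) : ℝ := g ^ (r * (r - 1)) / g ^ (w * (w - 1))

theorem hf_nonneg {r : ℕ} {g : ℝ} (hg : 0 < g) (w : ℕ) : 0 ≤ hf r g w := by
  unfold hf; positivity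

theorem star_eq {r w k : ℕ} {g : ℝ} (hg : 0 < g) (hw : 2 ≤ w) (hwr : w ≤ r) :
    (k : ℝ) ^ (r - w) * hf r g w = (k * g ^ (r + w - 1)) ^ (r - w) := by
  obtain ⟨v, rfl⟩ : ∃ v, w = v + 2 := ⟨w - 2, by omega⟩
  obtain ⟨t, rfl⟩ := Nat.exists_eq_add_of_le hwr
  unfold hf
  rw [Nat.add_sub_cancel_left, show v + 2 + t - 1 = v + t + 1 by omega,
    show v + 2 - 1 = v + 1 by omega, show v + 2 + t + (v + 2) - 1 = 2 * v + t + 3 by omega,
    mul_pow, ← pow_mul]
  rw [show (v + 2 + t) * (v + t + 1) = (2 * v + t + 3) * t + (v + 2) * (v + 1) by ring, pow_add]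
  field_simp

theorem star_le {r w k : ℕ} {g : ℝ} (hg : 0 < g) (hg1 : g ≤ 1) (hw : 2 ≤ w) (hwr : w ≤ r) :
    (k : ℝ) ^ (r - w) * hf r g w ≤ (k * g ^ (r + 1)) ^ (r - w) := by
  rw [star_eq hg hw hwr]
  refine pow_le_pow_left₀ (by positivity) ?_ _
  exact mul_le_mul_of_nonneg_left (pow_le_pow_of_le_one hg.le hg1 (by omega)) (Nat.cast_nonneg _)

theorem star {r w k : ℕ} {g : ℝ} (hg : 0 < g) (hg1 : g ≤ 1) (hη : k * g ^ (r + 1) ≤ 1)
    (hw : 2 ≤ w) (hwr : w ≤ r) : (k : ℝ) ^ (r - w) * hf r g w ≤ 1 :=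
  (star_le hg hg1 hw hwr).trans (pow_le_one₀ (by positivity) hη)

theorem star' {r w k : ℕ} {g : ℝ} (hg : 0 < g) (hg1 : g ≤ 1) (hη : k * g ^ (r + 1) ≤ 1)
    (hw : 2 ≤ w) (hwr : w < r) : (k : ℝ) ^ (r - w) * hf r g w ≤ k * g ^ (r + 1) :=
  (star_le hg hg1 hw hwr.le).trans (pow_le_of_le_one (by positivity) hη (by omega))

theorem star2 {r k : ℕ} {g : ℝ} (hg : 0 < g) (hη : k * g ^ (r + 1) ≤ 1) (hr : 2 ≤ r) :
    (k : ℝ) ^ (r - 2) * g ^ (r * (r - 1)) ≤ g ^ 2 := by
  obtain ⟨t, rfl⟩ := Nat.exists_eq_add_of_le hr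
  rw [Nat.add_sub_cancel_left, show 2 + t - 1 = t + 1 by omega,
    show (2 + t) * (t + 1) = (2 + t + 1) * t + 2 by ring, pow_add, pow_mul, ← mul_assoc, ← mul_pow]
  calc (k * g ^ (2 + t + 1)) ^ t * g ^ 2 ≤ 1 * g ^ 2 :=
        mul_le_mul_of_nonneg_right (pow_le_one₀ (by positivity) hη) (by positivity)
    _ = g ^ 2 := one_mul _

variable {r k : ℕ}

/-- one term -/
theorem term_le {g : ℝ} (hg : 0 < g) (hg1 : g ≤ 1) (j : Fin r → Fin k)
    (B S : Finset (Fin r → Fin k)) (i : Fin r → Fin k) :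
    (g ^ 2) ^ outc (Ed r k) j i B S ≤
      hf r g (W0 j B i).card * ∏ a ∈ S, (g ^ ((ag i a).card * ((ag i a).card - 1)))⁻¹ := by
  have h1 := card_out j B S i
  unfold hf
  rw [Finset.prod_inv_distrib, Finset.prod_pow_eq_pow_sum, ← div_eq_mul_inv, div_div, ← pow_mul,
    le_div_iff₀ (by positivity), ← pow_add, ← pow_add]
  exact pow_le_pow_of_le_one hg.le hg1 (by omega)

theorem exp_sub_one_le {y : ℝ} : Real.exp y - 1 ≤ y * Real.exp y := by
  have h1 := Real.add_one_le_exp (-y)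
  have h2 := Real.exp_pos y
  have h3 : Real.exp (-y) * Real.exp y = 1 := by rw [← Real.exp_add]; simp
  nlinarith

/-- the members of a family that meet `i` -/
noncomputable def NN (i : Fin r → Fin k) : Finset (Fin r → Fin k) :=
  univ.filter (fun a => a ≠ i ∧ 2 ≤ (ag i a).card)

theorem mem_NN {i a : Fin r → Fin k} : a ∈ NN i ↔ a ≠ i ∧ 2 ≤ (ag i a).card := by
  simp [NN]

theorem card_ag_le (i a : Fin r → Fin k) : (ag i a).card ≤ r := by
  have := Finset.card_le_univ (ag i a)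
  rwa [Fintype.card_fin] at this

theorem ag_comm (i a : Fin r → Fin k) : ag i a = ag a i := by
  ext l
  rw [mem_ag, mem_ag, eq_comm]

theorem card_NN (hk : 1 ≤ k) (hr : 2 ≤ r) (i : Fin r → Fin k) (s : Finset (Fin r → Fin k))
    (hs : ∀ a ∈ s, 2 ≤ (ag i a).card) : (s.card : ℝ) ≤ 2 ^ r * (k : ℝ) ^ (r - 2) := by
  have h1 := grp (fun l => {i l}) (M := 1) le_rfl (fun l => (Finset.card_singleton _).le) s
    (fun a => ag i a) (fun a _ l hl => Finset.mem_singleton.2 (mem_ag.1 hl).symm) (fun _ => (1 : ℝ))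
    (c := (k : ℝ) ^ (r - 2)) (fun _ => zero_le_one) (by positivity) (by
      intro a ha
      rw [mul_one]
      have h2 := hs a ha
      exact pow_le_pow_right₀ (by exact_mod_cast hk) (by omega))
  simpa using h1

theorem sum_NN {g π : ℝ} (hg : 0 < g) (hg1 : g ≤ 1) (hη : k * g ^ (r + 1) ≤ 1) (hr : 2 ≤ r)
    (hπ : π ≤ g ^ (r * (r - 1))) (i : Fin r → Fin k) :
    ∑ a ∈ NN i, π * (g ^ ((ag i a).card * ((ag i a).card - 1)))⁻¹ ≤ 2 ^ r * (k * g ^ (r + 1)) := by
  have h1 := grp (fun l => {i l}) (M := 1) le_rfl (fun l => (Finset.card_singleton _).le) (NN i)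
    (fun a => ag i a) (fun a _ l hl => Finset.mem_singleton.2 (mem_ag.1 hl).symm) (hf r g)
    (c := k * g ^ (r + 1)) (fun w => hf_nonneg hg w) (by positivity) (by
      intro a ha
      obtain ⟨h2, h3⟩ := mem_NN.1 ha
      have h4 := ag_lt h2
      exact star' hg hg1 hη h3 (by omega))
  refine le_trans (Finset.sum_le_sum fun a _ => ?_) (h1.trans (le_of_eq (by simp)))
  unfold hf
  rw [div_eq_mul_inv]
  exact mul_le_mul_of_nonneg_right hπ (by positivity)

/-- the inner sum -/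
theorem inner_le {g π : ℝ} (hk : 1 ≤ k) (hg : 0 < g) (hg1 : g ≤ 1) (hη : k * g ^ (r + 1) ≤ 1)
    (hr : 2 ≤ r) (hπ0 : 0 ≤ π) (hπ : π ≤ g ^ (r * (r - 1))) (j : Fin r → Fin k)
    (B : Finset (Fin r → Fin k)) (i : Fin r → Fin k) (SS' : Finset (Finset (Fin r → Fin k)))
    (hS : ∀ S ∈ SS', S.Nonempty ∧ ∀ a ∈ S, ∃ e, e ∈ Ed r k a ∧ e ∈ Ed r k i) :
    ∑ S ∈ SS', π ^ S.card * (g ^ 2) ^ outc (Ed r k) j i B S ≤
      hf r g (W0 j B i).card * (2 ^ r * (k * g ^ (r + 1)) * Real.exp (2 ^ r)) +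
        π * Real.exp (2 ^ r) := by
  set f : Finset (Fin r → Fin k) → ℝ := fun S =>
    π ^ S.card * (g ^ 2) ^ outc (Ed r k) j i B S with hfdef
  have hf0 : ∀ S, 0 ≤ f S := fun S => by
    rw [hfdef]
    positivity
  set x : (Fin r → Fin k) → ℝ := fun a => π * (g ^ ((ag i a).card * ((ag i a).card - 1)))⁻¹ with hx
  have hx0 : ∀ a, 0 ≤ x a := fun a => by
    rw [hx]
    positivity
  have hη0 : 0 ≤ (k : ℝ) * g ^ (r + 1) := by positivity
  have hsub : SS' ⊆ (NN i).powerset.erase ∅ ∪ (NN i).powerset.image (insert i) := by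
    intro S hSm
    obtain ⟨h1, h2⟩ := hS S hSm
    have h3 : ∀ a ∈ S, 2 ≤ (ag i a).card := by
      intro a ha
      rw [ag_comm]
      exact two_le_ag (h2 a ha)
    by_cases hi : i ∈ S
    · refine Finset.mem_union_right _ (Finset.mem_image.2 ⟨S.erase i, ?_, Finset.insert_erase hi⟩)
      refine Finset.mem_powerset.2 fun a ha => ?_
      obtain ⟨h4, h5⟩ := Finset.mem_erase.1 ha
      exact mem_NN.2 ⟨h4, h3 a h5⟩
    · refine Finset.mem_union_left _ (Finset.mem_erase.2 ⟨h1.ne_empty, ?_⟩)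
      refine Finset.mem_powerset.2 fun a ha => mem_NN.2 ⟨?_, h3 a ha⟩
      rintro rfl
      exact hi ha
  have h1 : ∑ S ∈ SS', f S ≤ ∑ S ∈ (NN i).powerset.erase ∅, f S +
      ∑ S ∈ (NN i).powerset.image (insert i), f S := by
    refine (Finset.sum_le_sum_of_subset_of_nonneg hsub fun S _ _ => hf0 S).trans ?_
    rw [← Finset.sum_union_inter]
    have := Finset.sum_nonneg (s := (NN i).powerset.erase ∅ ∩ (NN i).powerset.image (insert i))
      (fun S _ => hf0 S)
    linarith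
  -- first sum
  have h2 : ∑ S ∈ (NN i).powerset.erase ∅, f S ≤
      hf r g (W0 j B i).card * (Real.exp (∑ a ∈ NN i, x a) - 1) := by
    have e1 : ∀ S ∈ (NN i).powerset.erase ∅, f S ≤ hf r g (W0 j B i).card * ∏ a ∈ S, x a := by
      intro S _
      have h3 := term_le hg hg1 j B S i
      rw [hx, Finset.prod_mul_distrib, Finset.prod_const]
      calc f S = π ^ S.card *
            (g ^ 2) ^ outc (Ed r k) j i B S := rfl
        _ ≤ π ^ S.card * (hf r g (W0 j B i).card *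
            ∏ a ∈ S, (g ^ ((ag i a).card * ((ag i a).card - 1)))⁻¹) :=
            mul_le_mul_of_nonneg_left h3 (by positivity)
        _ = _ := by ring
    refine (Finset.sum_le_sum e1).trans ?_
    rw [← Finset.mul_sum]
    refine mul_le_mul_of_nonneg_left ?_ (hf_nonneg hg _)
    have e2 : ∑ S ∈ (NN i).powerset, ∏ a ∈ S, x a =
        ∑ S ∈ (NN i).powerset.erase ∅, ∏ a ∈ S, x a + 1 := by
      rw [← Finset.sum_erase_add _ _ (Finset.empty_mem_powerset _), Finset.prod_empty]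
    have e3 := Finset.prod_one_add (f := x) (NN i)
    have e4 := Real.prod_one_add_le_exp_sum (NN i) hx0
    rw [e3, e2] at e4
    linarith
  -- second sum
  have h3 : ∑ S ∈ (NN i).powerset.image (insert i), f S ≤ π * Real.exp (2 ^ r) := by
    have hni : i ∉ NN i := fun h => (mem_NN.1 h).1 rfl
    rw [Finset.sum_image]
    · have e1 : ∀ S ∈ (NN i).powerset, f (insert i S) ≤ π * ∏ _a ∈ S, π := by
        intro S hSm
        have h4 : i ∉ S := fun h => hni (Finset.mem_powerset.1 hSm h)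
        have h5 : (g ^ 2) ^ outc (Ed r k) j i B (insert i S) ≤ 1 :=
          pow_le_one₀ (by positivity) (pow_le_one₀ hg.le hg1)
        calc f (insert i S) = π ^ (insert i S).card *
              (g ^ 2) ^ outc (Ed r k) j i B (insert i S) := rfl
          _ ≤ π ^ (insert i S).card * 1 := mul_le_mul_of_nonneg_left h5 (by positivity)
          _ = _ := by
            rw [Finset.card_insert_of_notMem h4, Finset.prod_const, mul_one, pow_succ]
            ring
      refine (Finset.sum_le_sum e1).trans ?_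
      rw [← Finset.mul_sum]
      refine mul_le_mul_of_nonneg_left ?_ hπ0
      rw [← Finset.prod_one_add (f := fun _ => π) (NN i)]
      refine (Real.prod_one_add_le_exp_sum (NN i) (fun _ => hπ0)).trans ?_
      rw [Real.exp_le_exp, Finset.sum_const, nsmul_eq_mul]
      have h4 := card_NN hk hr i (NN i) (fun a ha => (mem_NN.1 ha).2)
      have h5 := star2 (k := k) hg hη hr
      have h6 : g ^ 2 ≤ 1 := pow_le_one₀ hg.le hg1
      calc ((NN i).card : ℝ) * π ≤ (2 ^ r * (k : ℝ) ^ (r - 2)) * g ^ (r * (r - 1)) :=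
            mul_le_mul h4 hπ hπ0 (by positivity)
        _ = 2 ^ r * ((k : ℝ) ^ (r - 2) * g ^ (r * (r - 1))) := by ring
        _ ≤ 2 ^ r * 1 := mul_le_mul_of_nonneg_left (h5.trans h6) (by positivity)
        _ = 2 ^ r := mul_one _
    · intro S hS1 S' hS2 h
      have h4 : i ∉ S := fun h => hni (Finset.mem_powerset.1 hS1 h)
      have h5 : i ∉ S' := fun h => hni (Finset.mem_powerset.1 hS2 h)
      rw [← Finset.erase_insert h4, ← Finset.erase_insert h5]
      exact congrArg (fun T => Finset.erase T i) h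
  -- the exponential
  have h4 : Real.exp (∑ a ∈ NN i, x a) - 1 ≤ 2 ^ r * (k * g ^ (r + 1)) * Real.exp (2 ^ r) := by
    have e1 := sum_NN hg hg1 hη hr hπ i
    have e2 : 2 ^ r * ((k : ℝ) * g ^ (r + 1)) ≤ 2 ^ r := by
      have : (2 : ℝ) ^ r * ((k : ℝ) * g ^ (r + 1)) ≤ 2 ^ r * 1 :=
        mul_le_mul_of_nonneg_left hη (by positivity)
      linarith
    have e3 : Real.exp (∑ a ∈ NN i, x a) ≤ Real.exp (2 ^ r * (k * g ^ (r + 1))) :=
      Real.exp_le_exp.2 e1
    have e4 := exp_sub_one_le (y := 2 ^ r * ((k : ℝ) * g ^ (r + 1)))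
    have e5 : 2 ^ r * ((k : ℝ) * g ^ (r + 1)) * Real.exp (2 ^ r * ((k : ℝ) * g ^ (r + 1))) ≤
        2 ^ r * ((k : ℝ) * g ^ (r + 1)) * Real.exp (2 ^ r) :=
      mul_le_mul_of_nonneg_left (Real.exp_le_exp.2 e2) (by positivity)
    linarith
  have h5 : hf r g (W0 j B i).card * (Real.exp (∑ a ∈ NN i, x a) - 1) ≤
      hf r g (W0 j B i).card * (2 ^ r * (k * g ^ (r + 1)) * Real.exp (2 ^ r)) :=
    mul_le_mul_of_nonneg_left h4 (hf_nonneg hg _)
  linarith

/-- the sum of the weights -/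
theorem sum_W0 {g : ℝ} (hg : 0 < g) (hg1 : g ≤ 1) (hη : k * g ^ (r + 1) ≤ 1) {m : ℕ}
    (j : Fin r → Fin k) (B : Finset (Fin r → Fin k)) (hB : B.card ≤ m)
    (s : Finset (Fin r → Fin k)) (hs : ∀ i ∈ s, 2 ≤ (ag i j).card) :
    ∑ i ∈ s, hf r g (W0 j B i).card ≤ 2 ^ r * ((m : ℝ) + 1) ^ r := by
  have h1 := grp (fun l => insert (j l) (B.image (fun a => a l))) (M := m + 1) (by omega)
    (fun l => (Finset.card_insert_le _ _).trans (Nat.succ_le_succ (Finset.card_image_le.trans hB)))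
    s (fun i => W0 j B i) (fun i _ l hl => mem_W0.1 hl) (hf r g) (c := 1)
    (fun w => hf_nonneg hg w) zero_le_one (by
      intro i hi
      have h2 : 2 ≤ (W0 j B i).card := (hs i hi).trans (Finset.card_le_card (ag_sub_W0 j B i))
      have h3 : (W0 j B i).card ≤ r := by
        have := Finset.card_le_univ (W0 j B i)
        rwa [Fintype.card_fin] at this
      exact star hg hg1 hη h2 h3)
  push_cast at h1
  linarith

theorem count : StCount := by
  intro r m hr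
  set K : ℕ := 2 ^ r * (m + 1) ^ r with hK
  refine ⟨K, 2 ^ r * Real.exp (2 ^ r) * (K + 1), by positivity, ?_⟩
  intro k g π hk hg hg1 hη hπ0 hπ j B hB
  have hKc : (K : ℝ) = 2 ^ r * ((m : ℝ) + 1) ^ r := by
    rw [hK]
    push_cast
    ring
  have hη0 : 0 ≤ (k : ℝ) * g ^ (r + 1) := by positivity
  constructor
  · obtain ⟨s, hs, hQ⟩ := QQ_form univ (Ed r k) (g ^ 2) j B
    rw [hQ, hKc]
    refine le_trans (Finset.sum_le_sum fun i _ => ?_)
      (sum_W0 hg hg1 hη j B hB s fun i hi => two_le_ag (hs i hi))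
    have h1 := term_le hg hg1 j B ∅ i
    rw [Finset.prod_empty, mul_one] at h1
    exact h1
  · obtain ⟨s, SS', hs, hS, hQ⟩ := SS_form univ (Ed r k) (r.choose 2) (g ^ 2) π j B
    rw [hQ]
    refine (Finset.sum_le_sum fun i _ =>
      inner_le hk hg hg1 hη hr hπ0 hπ j B i (SS' i) (hS i)).trans ?_
    rw [Finset.sum_add_distrib, ← Finset.sum_mul, Finset.sum_const, nsmul_eq_mul]
    have h2 := sum_W0 hg hg1 hη j B hB s fun i hi => two_le_ag (hs i hi)
    have h3 := card_NN hk hr j s (by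
      intro i hi
      rw [ag_comm]
      exact two_le_ag (hs i hi))
    have h4 := star2 (k := k) hg hη hr
    have h5 : (s.card : ℝ) * π ≤ 2 ^ r * g ^ 2 := by
      calc (s.card : ℝ) * π ≤ (2 ^ r * (k : ℝ) ^ (r - 2)) * g ^ (r * (r - 1)) :=
            mul_le_mul h3 hπ hπ0 (by positivity)
        _ = 2 ^ r * ((k : ℝ) ^ (r - 2) * g ^ (r * (r - 1))) := by ring
        _ ≤ 2 ^ r * g ^ 2 := mul_le_mul_of_nonneg_left h4 (by positivity)
    have h6 : (s.card : ℝ) * (π * Real.exp (2 ^ r)) ≤ 2 ^ r * g ^ 2 * Real.exp (2 ^ r) := by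
      rw [← mul_assoc]
      exact mul_le_mul_of_nonneg_right h5 (Real.exp_pos _).le
    rw [← hKc] at h2
    have h7 : (∑ i ∈ s, hf r g (W0 j B i).card) * (2 ^ r * (k * g ^ (r + 1)) * Real.exp (2 ^ r)) ≤
        K * (2 ^ r * (k * g ^ (r + 1)) * Real.exp (2 ^ r)) :=
      mul_le_mul_of_nonneg_right h2 (by positivity)
    refine (add_le_add h7 h6).trans ?_
    have h8 : 0 ≤ 2 ^ r * Real.exp (2 ^ r) * ((k : ℝ) * g ^ (r + 1)) := by positivity
    have h9 : 0 ≤ 2 ^ r * Real.exp (2 ^ r) * (K : ℝ) * g ^ 2 := by positivity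
    have h10 : 2 ^ r * Real.exp (2 ^ r) * ((K : ℝ) + 1) * (k * g ^ (r + 1) + g ^ 2) =
        K * (2 ^ r * (k * g ^ (r + 1)) * Real.exp (2 ^ r)) + 2 ^ r * g ^ 2 * Real.exp (2 ^ r) +
        2 ^ r * Real.exp (2 ^ r) * ((k : ℝ) * g ^ (r + 1)) +
        2 ^ r * Real.exp (2 ^ r) * (K : ℝ) * g ^ 2 := by ring
    rw [h10]
    linarith

end Pool.Agent.Y246.KF
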