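import Pool.Agent.Y240.KF.Stm

set_option autoImplicit false
set_option linter.unusedSectionVars false

/-!
# KF-COUNT (job 1883, helper246 for helper240): cliques and counting
-/

namespace Pool.Agent.Y246.KF

open Finset
open scoped Classical
open Pool.Agent.Y240.KF

section gen

variable {E I : Type}

/-- the number of elements of `A i` outside the other sets -/
noncomputable def outc (A : I → Finset E) (j i : I) (B S : Finset I) : ℕ :=
  (A i \ (A j ∪ cov A (B ∪ S))).card

theorem outc_bound (A : I → Finset E) (j i : I) (B S : Finset I) (X : Finset E)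
    (h : ∀ e ∈ A i, (e ∈ A j ∨ (∃ a ∈ B, e ∈ A a) ∨ ∃ a ∈ S, e ∈ A a) → e ∈ X) :
    (A i).card ≤ outc A j i B S + X.card := by
  unfold outc
  refine (Finset.card_le_card ?_).trans (Finset.card_union_le _ _)
  intro e he
  rw [Finset.mem_union]
  by_cases h1 : e ∈ A j ∪ cov A (B ∪ S)
  · right
    apply h e he
    rw [Finset.mem_union] at h1
    rcases h1 with h1 | h1
    · exact Or.inl h1
    · right
      unfold cov at h1
      rw [Finset.mem_biUnion] at h1
      obtain ⟨a, ha, h2⟩ := h1
      rw [Finset.mem_union] at ha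
      rcases ha with ha | ha
      · exact Or.inl ⟨a, ha, h2⟩
      · exact Or.inr ⟨a, ha, h2⟩
  · left
    rw [Finset.mem_sdiff]
    exact ⟨he, h1⟩

theorem QQ_form (L : Finset I) (A : I → Finset E) (p : ℝ) (j : I) (T : Finset I) :
    ∃ s : Finset I, (∀ i ∈ s, ∃ e, e ∈ A i ∧ e ∈ A j) ∧
      QQ L A p j T = ∑ i ∈ s, p ^ outc A j i T ∅ := by
  refine ⟨L.filter (fun i => i ≠ j ∧ (A i ∩ A j).Nonempty), ?_, ?_⟩
  · intro i hi
    rw [Finset.mem_filter] at hi
    obtain ⟨-, -, e, he⟩ := hi
    rw [Finset.mem_inter] at he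
    exact ⟨e, he⟩
  · unfold QQ outc
    refine Finset.sum_congr rfl fun i _ => ?_
    rw [Finset.union_empty]

theorem SS_form (L : Finset I) (A : I → Finset E) (D : ℕ) (p π : ℝ) (j : I) (B : Finset I) :
    ∃ (s : Finset I) (SS' : I → Finset (Finset I)), (∀ i ∈ s, ∃ e, e ∈ A i ∧ e ∈ A j) ∧
      (∀ i, ∀ S ∈ SS' i, S.Nonempty ∧ ∀ a ∈ S, ∃ e, e ∈ A a ∧ e ∈ A i) ∧
      SS L A D p π j B = ∑ i ∈ s, ∑ S ∈ SS' i, π ^ S.card * p ^ outc A j i B S := by
  refine ⟨L.filter (fun i => i ≠ j ∧ (A i ∩ A j).Nonempty), fun i => (L \ B).powerset.filter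
    (fun S => S.Nonempty ∧ S.card ≤ D ∧ ∀ a ∈ S, (A a ∩ A i).Nonempty), ?_, ?_, rfl⟩
  · intro i hi
    rw [Finset.mem_filter] at hi
    obtain ⟨-, -, e, he⟩ := hi
    rw [Finset.mem_inter] at he
    exact ⟨e, he⟩
  · intro i S hS
    rw [Finset.mem_filter] at hS
    refine ⟨hS.2.1, fun a ha => ?_⟩
    obtain ⟨e, he⟩ := hS.2.2.2 a ha
    rw [Finset.mem_inter] at he
    exact ⟨e, he⟩

end gen

variable {r k : ℕ}

/-- the coordinates where `i` and `a` agree -/
noncomputable def ag (i a : Fin r → Fin k) : Finset (Fin r) := univ.filter (fun l => i l = a l)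

theorem mem_ag {i a : Fin r → Fin k} {l : Fin r} : l ∈ ag i a ↔ i l = a l := by
  simp [ag]

/-- the pairs inside `W` -/
noncomputable def pp (W : Finset (Fin r)) : Finset (Sym2 (Fin r)) :=
  W.offDiag.image Sym2.mk.uncurry

theorem card_pp (W : Finset (Fin r)) : (pp W).card = W.card.choose 2 := Sym2.card_image_offDiag W

theorem mem_pp {W : Finset (Fin r)} {a b : Fin r} : s(a, b) ∈ pp W ↔ a ∈ W ∧ b ∈ W ∧ a ≠ b := by
  unfold pp
  simp only [Finset.mem_image, Finset.mem_offDiag, Prod.exists, Function.uncurry_apply_pair]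
  constructor
  · rintro ⟨x, y, ⟨h1, h2, h3⟩, h⟩
    rcases Sym2.eq_iff.1 h with ⟨rfl, rfl⟩ | ⟨rfl, rfl⟩
    · exact ⟨h1, h2, h3⟩
    · exact ⟨h2, h1, fun h => h3 h.symm⟩
  · rintro ⟨h1, h2, h3⟩
    exact ⟨a, b, ⟨h1, h2, h3⟩, rfl⟩

/-- the map on vertices -/
def vm (i : Fin r → Fin k) (l : Fin r) : Fin r × Fin k := (l, i l)

theorem vm_inj (i : Fin r → Fin k) : Function.Injective (vm i) := fun _ _ h => congrArg Prod.fst h

theorem Ed_eq (i : Fin r → Fin k) : Ed r k i = (pp (univ : Finset (Fin r))).image (Sym2.map (vm i)) := by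
  unfold Ed
  congr 1
  ext e
  induction e using Sym2.ind with
  | _ a b =>
    rw [mem_pp, Finset.mem_filter]
    simp

theorem card_Ed (i : Fin r → Fin k) : (Ed r k i).card = r.choose 2 := by
  rw [Ed_eq, Finset.card_image_of_injective _ (Sym2.map.injective (vm_inj i)), card_pp,
    Finset.card_univ, Fintype.card_fin]

/-- an edge of two cliques lies over the common coordinates -/
theorem mem_of_mem {i a : Fin r → Fin k} {e : Sym2 (Fin r × Fin k)} (h1 : e ∈ Ed r k i)
    (h2 : e ∈ Ed r k a) : e ∈ (pp (ag i a)).image (Sym2.map (vm i)) := by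
  rw [Ed_eq, Finset.mem_image] at h1 h2
  obtain ⟨u, hu, rfl⟩ := h1
  obtain ⟨v, hv, hvu⟩ := h2
  refine Finset.mem_image.2 ⟨u, ?_, rfl⟩
  induction u using Sym2.ind with
  | _ x y =>
    induction v using Sym2.ind with
    | _ x' y' =>
      rw [mem_pp] at hu ⊢
      rw [Sym2.map_mk, Sym2.map_mk, Sym2.eq_iff] at hvu
      unfold vm at hvu
      refine ⟨?_, ?_, hu.2.2⟩
      · rw [mem_ag]
        rcases hvu with ⟨h, -⟩ | ⟨-, h⟩
        · have e1 := congrArg Prod.fst h
          have e2 := congrArg Prod.snd h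
          simp only at e1 e2
          rw [← e2, e1]
        · have e1 := congrArg Prod.fst h
          have e2 := congrArg Prod.snd h
          simp only at e1 e2
          rw [← e2, e1]
      · rw [mem_ag]
        rcases hvu with ⟨-, h⟩ | ⟨h, -⟩
        · have e1 := congrArg Prod.fst h
          have e2 := congrArg Prod.snd h
          simp only at e1 e2
          rw [← e2, e1]
        · have e1 := congrArg Prod.fst h
          have e2 := congrArg Prod.snd h
          simp only at e1 e2
          rw [← e2, e1]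

/-- cliques which share an edge agree at two coordinates -/
theorem two_le_ag {i a : Fin r → Fin k} (h : ∃ e, e ∈ Ed r k i ∧ e ∈ Ed r k a) :
    2 ≤ (ag i a).card := by
  obtain ⟨e, h1, h2⟩ := h
  obtain ⟨u, hu, -⟩ := Finset.mem_image.1 (mem_of_mem h1 h2)
  have h3 : 0 < (pp (ag i a)).card := Finset.card_pos.2 ⟨u, hu⟩
  rw [card_pp] at h3
  by_contra hcon
  rw [Nat.choose_eq_zero_of_lt (by omega)] at h3
  exact lt_irrefl _ h3

theorem ag_lt {i a : Fin r → Fin k} (h : a ≠ i) : (ag i a).card ≤ r - 1 := by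
  have h1 : (ag i a).card < r := by
    have h2 : ag i a ⊂ univ := by
      refine Finset.ssubset_univ_iff.2 fun h3 => h ?_
      funext l
      have : l ∈ ag i a := by rw [h3]; exact Finset.mem_univ _
      exact (mem_ag.1 this).symm
    have h3 := Finset.card_lt_card h2
    rwa [Finset.card_univ, Fintype.card_fin] at h3
  omega

/-- the coordinates of `i` over the vertices of `j` and the members of `B` -/
noncomputable def W0 (j : Fin r → Fin k) (B : Finset (Fin r → Fin k)) (i : Fin r → Fin k) :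
    Finset (Fin r) := univ.filter (fun l => i l ∈ insert (j l) (B.image (fun a => a l)))

theorem mem_W0 {j : Fin r → Fin k} {B : Finset (Fin r → Fin k)} {i : Fin r → Fin k} {l : Fin r} :
    l ∈ W0 j B i ↔ i l ∈ insert (j l) (B.image (fun a => a l)) := by
  simp [W0]

theorem ag_sub_W0 (j : Fin r → Fin k) (B : Finset (Fin r → Fin k)) (i : Fin r → Fin k) :
    ag i j ⊆ W0 j B i := by
  intro l hl
  rw [mem_ag] at hl
  rw [mem_W0, hl]
  exact Finset.mem_insert_self _ _

theorem ag_sub_W0' {j : Fin r → Fin k} {B : Finset (Fin r → Fin k)} {a : Fin r → Fin k} (ha : a ∈ B)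
    (i : Fin r → Fin k) : ag i a ⊆ W0 j B i := by
  intro l hl
  rw [mem_ag] at hl
  rw [mem_W0, hl]
  exact Finset.mem_insert_of_mem (Finset.mem_image_of_mem _ ha)

theorem pp_mono {W W' : Finset (Fin r)} (h : W ⊆ W') : pp W ⊆ pp W' := by
  intro e he
  induction e using Sym2.ind with
  | _ a b =>
    rw [mem_pp] at he ⊢
    exact ⟨h he.1, h he.2.1, he.2.2⟩

theorem two_choose (w : ℕ) : 2 * w.choose 2 = w * (w - 1) := by
  rw [Nat.choose_two_right]
  exact Nat.mul_div_cancel' (Nat.even_mul_pred_self w).two_dvd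

/-- the number of edges of `i` not covered -/
theorem card_out (j : Fin r → Fin k) (B S : Finset (Fin r → Fin k)) (i : Fin r → Fin k) :
    r * (r - 1) ≤ 2 * outc (Ed r k) j i B S +
      (W0 j B i).card * ((W0 j B i).card - 1) + ∑ a ∈ S, (ag i a).card * ((ag i a).card - 1) := by
  have h1 := outc_bound (Ed r k) j i B S ((pp (W0 j B i)).image (Sym2.map (vm i)) ∪
        S.biUnion (fun a => (pp (ag i a)).image (Sym2.map (vm i)))) (by
    intro e h1 h2
    rcases h2 with h2 | ⟨a, ha, h3⟩ | ⟨a, ha, h3⟩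
    · exact Finset.mem_union_left _
        (Finset.image_subset_image (pp_mono (ag_sub_W0 j B i)) (mem_of_mem h1 h2))
    · exact Finset.mem_union_left _
          (Finset.image_subset_image (pp_mono (ag_sub_W0' ha i)) (mem_of_mem h1 h3))
    · exact Finset.mem_union_right _ (Finset.mem_biUnion.2 ⟨a, ha, mem_of_mem h1 h3⟩))
  have h2 : ((pp (W0 j B i)).image (Sym2.map (vm i)) ∪
        S.biUnion (fun a => (pp (ag i a)).image (Sym2.map (vm i)))).card ≤
      (W0 j B i).card.choose 2 + ∑ a ∈ S, (ag i a).card.choose 2 := by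
    refine (Finset.card_union_le _ _).trans (Nat.add_le_add ?_ ?_)
    · exact Finset.card_image_le.trans (card_pp _).le
    · refine Finset.card_biUnion_le.trans (Finset.sum_le_sum fun a _ => ?_)
      exact Finset.card_image_le.trans (card_pp _).le
  rw [card_Ed] at h1
  have h3 := two_choose r
  have h4 := two_choose (W0 j B i).card
  have h5 : 2 * ∑ a ∈ S, (ag i a).card.choose 2 = ∑ a ∈ S, (ag i a).card * ((ag i a).card - 1) := by
    rw [Finset.mul_sum]
    exact Finset.sum_congr rfl fun a _ => two_choose _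
  omega

/-- functions with prescribed coordinates -/
theorem cnt (U : Fin r → Finset (Fin k)) {M : ℕ} (hU : ∀ l, (U l).card ≤ M) (W : Finset (Fin r)) :
    ((univ : Finset (Fin r → Fin k)).filter (fun i => ∀ l ∈ W, i l ∈ U l)).card ≤
      M ^ W.card * k ^ (r - W.card) := by
  have h1 : (univ : Finset (Fin r → Fin k)).filter (fun i => ∀ l ∈ W, i l ∈ U l) =
      Fintype.piFinset (fun l => if l ∈ W then U l else univ) := by
    ext i
    rw [Finset.mem_filter, Fintype.mem_piFinset]
    constructor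
    · rintro ⟨-, h⟩ l
      split_ifs with hl
      · exact h l hl
      · exact Finset.mem_univ _
    · intro h
      refine ⟨Finset.mem_univ _, fun l hl => ?_⟩
      have := h l
      rwa [if_pos hl] at this
  rw [h1, Fintype.card_piFinset]
  have h2 : ∏ l, (if l ∈ W then U l else (univ : Finset (Fin k))).card ≤
      ∏ l : Fin r, (if l ∈ W then M else k) := by
    refine Finset.prod_le_prod' fun l _ => ?_
    split_ifs
    · exact hU l
    · rw [Finset.card_univ, Fintype.card_fin]
  refine h2.trans (le_of_eq ?_)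
  rw [Finset.prod_ite, Finset.prod_const, Finset.prod_const]
  congr 2
  · congr 1
    ext l
    simp
  · have h3 : (univ : Finset (Fin r)).filter (fun l => l ∉ W) = univ \ W := by
      ext l
      simp
    rw [h3, Finset.card_sdiff_of_subset (Finset.subset_univ _), Finset.card_univ, Fintype.card_fin]

/-- the sum over functions grouped by a set of coordinates -/
theorem grp (U : Fin r → Finset (Fin k)) {M : ℕ} (hM : 1 ≤ M) (hU : ∀ l, (U l).card ≤ M)
    (s : Finset (Fin r → Fin k)) (Wf : (Fin r → Fin k) → Finset (Fin r))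
    (hW : ∀ i ∈ s, ∀ l ∈ Wf i, i l ∈ U l) (F : ℕ → ℝ) {c : ℝ} (hF : ∀ w, 0 ≤ F w) (hc0 : 0 ≤ c)
    (hc : ∀ i ∈ s, (k : ℝ) ^ (r - (Wf i).card) * F (Wf i).card ≤ c) :
    ∑ i ∈ s, F (Wf i).card ≤ 2 ^ r * (M : ℝ) ^ r * c := by
  have h1 : ∑ i ∈ s, F (Wf i).card =
      ∑ W ∈ (univ : Finset (Finset (Fin r))), ∑ i ∈ s.filter (fun i => Wf i = W), F (Wf i).card :=
    (Finset.sum_fiberwise_of_maps_to (fun _ _ => Finset.mem_univ _) _).symm
  rw [h1]
  have h2 : ∀ W ∈ (univ : Finset (Finset (Fin r))),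
      ∑ i ∈ s.filter (fun i => Wf i = W), F (Wf i).card ≤ (M : ℝ) ^ r * c := by
    intro W _
    rcases (s.filter (fun i => Wf i = W)).eq_empty_or_nonempty with h | ⟨i0, hi0⟩
    · rw [h, Finset.sum_empty]
      positivity
    · have e1 : ∑ i ∈ s.filter (fun i => Wf i = W), F (Wf i).card =
          ((s.filter (fun i => Wf i = W)).card : ℝ) * F W.card := by
        rw [← nsmul_eq_mul, ← Finset.sum_const]
        refine Finset.sum_congr rfl fun i hi => ?_
        rw [(Finset.mem_filter.1 hi).2]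
      rw [e1]
      have e2 : (s.filter (fun i => Wf i = W)).card ≤ M ^ W.card * k ^ (r - W.card) := by
        refine (Finset.card_le_card ?_).trans (cnt U hU W)
        intro i hi
        obtain ⟨h3, h4⟩ := Finset.mem_filter.1 hi
        refine Finset.mem_filter.2 ⟨Finset.mem_univ _, fun l hl => hW i h3 l ?_⟩
        rw [h4]
        exact hl
      have e3 : ((s.filter (fun i => Wf i = W)).card : ℝ) ≤ (M : ℝ) ^ W.card * (k : ℝ) ^ (r - W.card) := by
        exact_mod_cast e2
      have e4 := hc i0 (Finset.mem_filter.1 hi0).1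
      rw [(Finset.mem_filter.1 hi0).2] at e4
      have e5 : (M : ℝ) ^ W.card ≤ (M : ℝ) ^ r := by
        refine pow_le_pow_right₀ (by exact_mod_cast hM) ?_
        have := Finset.card_le_univ W
        rwa [Fintype.card_fin] at this
      calc ((s.filter (fun i => Wf i = W)).card : ℝ) * F W.card
          ≤ ((M : ℝ) ^ W.card * (k : ℝ) ^ (r - W.card)) * F W.card :=
            mul_le_mul_of_nonneg_right e3 (hF _)
        _ = (M : ℝ) ^ W.card * ((k : ℝ) ^ (r - W.card) * F W.card) := by ring
        _ ≤ (M : ℝ) ^ W.card * c := mul_le_mul_of_nonneg_left e4 (by positivity)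
        _ ≤ (M : ℝ) ^ r * c := mul_le_mul_of_nonneg_right e5 hc0
  refine (Finset.sum_le_sum h2).trans (le_of_eq ?_)
  rw [Finset.sum_const, nsmul_eq_mul, Finset.card_univ, Fintype.card_finset, Fintype.card_fin]
  push_cast
  ring

end Pool.Agent.Y246.KF
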